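import Pool.Agent.H95.AD.TargetsU

/-!
# ZBD: polynomial growth of the central value and of its constant term
-/

set_option autoImplicit false

open MeasureTheory Set Filter
open scoped Real

namespace Pool.Agent.H93.AD

open Pool.Agent.H31.CN Pool.Agent.H95.AD

theorem pf_ZBD (hHZ : T_HZ) : T_ZBD := by
  obtain ⟨C, k, hC, h⟩ := hHZ
  refine ⟨C * 2 ^ k + 1 + |c0|, k + 1, by positivity, ?_⟩
  intro A B Δ hA hΔ
  have hs : 2 ≤ A + Δ := by linarith
  have hs1 : 1 ≤ A + Δ := by linarith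
  have hk : (A + Δ) ^ k ≤ (A + Δ) ^ (k + 1) := pow_le_pow_right₀ hs1 (Nat.le_succ k)
  have hk1 : A + Δ ≤ (A + Δ) ^ (k + 1) := by
    conv_lhs => rw [← pow_one (A + Δ)]
    exact pow_le_pow_right₀ hs1 (by omega)
  have hc0 : 0 ≤ |c0| := abs_nonneg _
  constructor
  · obtain ⟨f, -, h2, h3⟩ := h A B Δ hA hΔ
    have h4 := h2 1 one_pos
    have hmem : (1 : ℂ) ∈ Sec := by
      show |(1 : ℂ).im| < (1 : ℂ).re
      simp
    have h5 := h3 1 hmem
    rw [Complex.ofReal_one, mul_one] at h4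
    rw [h4, Complex.norm_real, Real.norm_eq_abs, norm_one, inv_one] at h5
    have h6 : (1 + 1 : ℝ) ^ k = 2 ^ k := by norm_num
    rw [h6] at h5
    calc |zf A B Δ| ≤ C * (A + Δ) ^ k * 2 ^ k := h5
      _ = C * 2 ^ k * (A + Δ) ^ k := by ring
      _ ≤ C * 2 ^ k * (A + Δ) ^ (k + 1) := mul_le_mul_of_nonneg_left hk (by positivity)
      _ ≤ (C * 2 ^ k + 1 + |c0|) * (A + Δ) ^ (k + 1) :=
        mul_le_mul_of_nonneg_right (by linarith) (by positivity)
  · unfold ct
    have hA0 : 0 < A := by linarith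
    have hsA : 1 ≤ Real.sqrt A := Real.one_le_sqrt.2 hA
    have hsΔ : 1 ≤ Real.sqrt Δ := Real.one_le_sqrt.2 hΔ
    rw [abs_div, abs_of_pos (by linarith : 0 < Real.sqrt A)]
    have h1 : |Real.log (Real.sqrt Δ / A)| ≤ A + Δ := by
      rw [Real.log_div (by linarith) (by linarith)]
      have h2 : 0 ≤ Real.log (Real.sqrt Δ) := Real.log_nonneg hsΔ
      have h3 : Real.log (Real.sqrt Δ) ≤ Real.sqrt Δ - 1 :=
        Real.log_le_sub_one_of_pos (by linarith)
      have h4 : 0 ≤ Real.log A := Real.log_nonneg hA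
      have h5 : Real.log A ≤ A - 1 := Real.log_le_sub_one_of_pos hA0
      have h6 : Real.sqrt Δ ≤ Δ := by
        have := Real.mul_self_sqrt (by linarith : (0 : ℝ) ≤ Δ)
        nlinarith
      rw [abs_le]
      constructor <;> linarith
    have h2 : |Real.log (Real.sqrt Δ / A) + c0| ≤ (A + Δ) + |c0| :=
      (abs_add_le _ _).trans (by linarith)
    calc |Real.log (Real.sqrt Δ / A) + c0| / Real.sqrt A
        ≤ |Real.log (Real.sqrt Δ / A) + c0| := div_le_self (abs_nonneg _) hsA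
      _ ≤ (A + Δ) + |c0| := h2
      _ ≤ (1 + |c0|) * (A + Δ) := by nlinarith
      _ ≤ (1 + |c0|) * (A + Δ) ^ (k + 1) := mul_le_mul_of_nonneg_left hk1 (by positivity)
      _ ≤ (C * 2 ^ k + 1 + |c0|) * (A + Δ) ^ (k + 1) := by
        refine mul_le_mul_of_nonneg_right ?_ (by positivity)
        have : 0 ≤ C * 2 ^ k := by positivity
        linarith

end Pool.Agent.H93.AD
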